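import Pool.Agent.helper50.BS.SpecT

/-! TR1: existence of the truncated ring. -/

set_option autoImplicit false

open Finset

noncomputable section

namespace Pool.Agent.BS

/-- iterated power series -/
abbrev TR1_S (M : ℕ) : Type := PowerSeries (PowerSeries (PowerSeries (ZMod M)))

/-- coefficients -/
def TR1_c {M : ℕ} (a c j : ℕ) (f : TR1_S M) : ZMod M :=
  PowerSeries.coeff j (PowerSeries.coeff c (PowerSeries.coeff a f))

theorem TR1_c_add {M : ℕ} (a c j : ℕ) (f g : TR1_S M) : TR1_c a c j (f + g) = TR1_c a c j f + TR1_c a c j g := by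
  simp only [TR1_c, map_add]

theorem TR1_c_sub {M : ℕ} (a c j : ℕ) (f g : TR1_S M) : TR1_c a c j (f - g) = TR1_c a c j f - TR1_c a c j g := by
  simp only [TR1_c, map_sub]

theorem TR1_c_zero {M : ℕ} (a c j : ℕ) : TR1_c a c j (0 : TR1_S M) = 0 := by
  simp only [TR1_c, map_zero]

theorem TR1_c_mul {M : ℕ} (a c j : ℕ) (f g : TR1_S M) : TR1_c a c j (f * g) =
    ∑ a1 ∈ range (a + 1), ∑ c1 ∈ range (c + 1), ∑ j1 ∈ range (j + 1),
      TR1_c a1 c1 j1 f * TR1_c (a - a1) (c - c1) (j - j1) g := by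
  simp only [TR1_c]
  rw [PowerSeries.coeff_mul, Finset.Nat.sum_antidiagonal_eq_sum_range_succ_mk, map_sum, map_sum]
  refine Finset.sum_congr rfl fun a1 _ => ?_
  rw [PowerSeries.coeff_mul, Finset.Nat.sum_antidiagonal_eq_sum_range_succ_mk, map_sum]
  refine Finset.sum_congr rfl fun c1 _ => ?_
  rw [PowerSeries.coeff_mul, Finset.Nat.sum_antidiagonal_eq_sum_range_succ_mk]

theorem TR1_c_mon {M : ℕ} (a c j a' c' j' : ℕ) :
    TR1_c a c j ((PowerSeries.X : TR1_S M) ^ a' * (PowerSeries.C PowerSeries.X) ^ c' *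
      (PowerSeries.C (PowerSeries.C PowerSeries.X)) ^ j') = if a' = a ∧ c' = c ∧ j' = j then 1 else 0 := by
  simp only [TR1_c]
  rw [← map_pow, ← map_pow, ← map_pow, PowerSeries.coeff_mul_C, PowerSeries.coeff_mul_C, PowerSeries.coeff_mul_C,
    PowerSeries.coeff_X_pow]
  by_cases h1 : a' = a
  · subst h1
    rw [if_pos rfl, one_mul, PowerSeries.coeff_X_pow]
    by_cases h2 : c' = c
    · subst h2
      rw [if_pos rfl, one_mul, PowerSeries.coeff_X_pow]
      by_cases h3 : j' = j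
      · subst h3; simp
      · rw [if_neg (Ne.symm h3), if_neg (fun h => h3 h.2.2)]
    · rw [if_neg (Ne.symm h2), zero_mul, map_zero, if_neg (fun h => h2 h.2.1)]
  · rw [if_neg (Ne.symm h1), zero_mul, map_zero, zero_mul, map_zero, if_neg (fun h => h1 h.1)]

/-- the ideal -/
def TR1_I (M n k l : ℕ) : Ideal (TR1_S M) where
  carrier := {f | ∀ a c j, a ≤ n → c ≤ k → j ≤ l → TR1_c a c j f = 0}
  add_mem' := by
    intro f g hf hg a c j ha hc hj
    rw [TR1_c_add, hf a c j ha hc hj, hg a c j ha hc hj, add_zero]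
  zero_mem' := fun a c j _ _ _ => TR1_c_zero a c j
  smul_mem' := by
    intro r f hf a c j ha hc hj
    rw [smul_eq_mul, TR1_c_mul]
    refine Finset.sum_eq_zero fun a1 _ => Finset.sum_eq_zero fun c1 _ => Finset.sum_eq_zero fun j1 _ => ?_
    rw [hf _ _ _ (by omega) (by omega) (by omega), mul_zero]

theorem TR1_mk_eq {M n k l : ℕ} {f g : TR1_S M} : Ideal.Quotient.mk (TR1_I M n k l) f = Ideal.Quotient.mk _ g ↔
    ∀ a c j, a ≤ n → c ≤ k → j ≤ l → TR1_c a c j f = TR1_c a c j g := by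
  rw [Ideal.Quotient.eq]
  constructor
  · intro h a c j ha hc hj
    have := h a c j ha hc hj
    rw [TR1_c_sub] at this
    exact sub_eq_zero.1 this
  · intro h a c j ha hc hj
    rw [TR1_c_sub, h a c j ha hc hj, sub_self]

/-- coefficient on the quotient -/
def TR1_f {M n k l : ℕ} (a c j : ℕ) (r : TR1_S M ⧸ TR1_I M n k l) : ZMod M :=
  if a ≤ n ∧ c ≤ k ∧ j ≤ l then TR1_c a c j (Quotient.out r) else 0

theorem TR1_f_mk {M n k l : ℕ} (a c j : ℕ) (ha : a ≤ n) (hc : c ≤ k) (hj : j ≤ l) (f : TR1_S M) :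
    TR1_f a c j (Ideal.Quotient.mk (TR1_I M n k l) f) = TR1_c a c j f := by
  unfold TR1_f
  rw [if_pos ⟨ha, hc, hj⟩]
  exact TR1_mk_eq.1 (Ideal.Quotient.mk_out _) a c j ha hc hj

theorem TR1_f_add {M n k l : ℕ} (a c j : ℕ) (r s : TR1_S M ⧸ TR1_I M n k l) :
    TR1_f a c j (r + s) = TR1_f a c j r + TR1_f a c j s := by
  by_cases h : a ≤ n ∧ c ≤ k ∧ j ≤ l
  · obtain ⟨f, rfl⟩ := Ideal.Quotient.mk_surjective r
    obtain ⟨g, rfl⟩ := Ideal.Quotient.mk_surjective s
    rw [← map_add, TR1_f_mk a c j h.1 h.2.1 h.2.2, TR1_f_mk a c j h.1 h.2.1 h.2.2, TR1_f_mk a c j h.1 h.2.1 h.2.2,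
      TR1_c_add]
  · unfold TR1_f
    rw [if_neg h, if_neg h, if_neg h, add_zero]

theorem TR1 : TR1_stmt := by
  intro M n k l
  refine ⟨{
    R := TR1_S M ⧸ TR1_I M n k l
    x := Ideal.Quotient.mk _ PowerSeries.X
    y := Ideal.Quotient.mk _ (PowerSeries.C PowerSeries.X)
    u := Ideal.Quotient.mk _ (PowerSeries.C (PowerSeries.C PowerSeries.X))
    cf := fun a c j => AddMonoidHom.mk' (TR1_f a c j) (TR1_f_add a c j)
    hx := ?_
    hy := ?_
    hu := ?_
    cf_mon := ?_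
    cf_mul := ?_
    ext := ?_ }⟩
  · rw [← map_pow, ← map_zero (Ideal.Quotient.mk (TR1_I M n k l)), TR1_mk_eq]
    intro a c j ha hc hj
    have := TR1_c_mon (M := M) a c j (n + 1) 0 0
    rw [pow_zero, pow_zero, mul_one, mul_one] at this
    rw [this, if_neg (by omega), TR1_c_zero]
  · rw [← map_pow, ← map_zero (Ideal.Quotient.mk (TR1_I M n k l)), TR1_mk_eq]
    intro a c j ha hc hj
    have := TR1_c_mon (M := M) a c j 0 (k + 1) 0
    rw [pow_zero, pow_zero, one_mul, mul_one] at this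
    rw [this, if_neg (by omega), TR1_c_zero]
  · rw [← map_pow, ← map_zero (Ideal.Quotient.mk (TR1_I M n k l)), TR1_mk_eq]
    intro a c j ha hc hj
    have := TR1_c_mon (M := M) a c j 0 0 (l + 1)
    rw [pow_zero, pow_zero, one_mul, one_mul] at this
    rw [this, if_neg (by omega), TR1_c_zero]
  · intro a c j a' c' j' ha hc hj
    have h0 : Ideal.Quotient.mk (TR1_I M n k l) PowerSeries.X ^ a' *
        Ideal.Quotient.mk (TR1_I M n k l) (PowerSeries.C PowerSeries.X) ^ c' *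
        Ideal.Quotient.mk (TR1_I M n k l) (PowerSeries.C (PowerSeries.C PowerSeries.X)) ^ j' =
        Ideal.Quotient.mk (TR1_I M n k l) (PowerSeries.X ^ a' * (PowerSeries.C PowerSeries.X) ^ c' *
          (PowerSeries.C (PowerSeries.C PowerSeries.X)) ^ j') := by
      simp only [map_mul, map_pow]
    rw [h0]
    change TR1_f a c j _ = _
    rw [TR1_f_mk a c j ha hc hj, TR1_c_mon]
  · intro a c j r r' ha hc hj
    obtain ⟨f, rfl⟩ := Ideal.Quotient.mk_surjective r
    obtain ⟨g, rfl⟩ := Ideal.Quotient.mk_surjective r'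
    rw [← map_mul]
    change TR1_f a c j _ = ∑ a1 ∈ range (a + 1), ∑ c1 ∈ range (c + 1), ∑ j1 ∈ range (j + 1),
      TR1_f a1 c1 j1 _ * TR1_f (a - a1) (c - c1) (j - j1) _
    rw [TR1_f_mk a c j ha hc hj, TR1_c_mul]
    refine Finset.sum_congr rfl fun a1 h1 => Finset.sum_congr rfl fun c1 h2 => Finset.sum_congr rfl fun j1 h3 => ?_
    rw [Finset.mem_range] at h1 h2 h3
    rw [TR1_f_mk a1 c1 j1 (by omega) (by omega) (by omega),
      TR1_f_mk (a - a1) (c - c1) (j - j1) (by omega) (by omega) (by omega)]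
  · intro r r' h
    obtain ⟨f, rfl⟩ := Ideal.Quotient.mk_surjective r
    obtain ⟨g, rfl⟩ := Ideal.Quotient.mk_surjective r'
    rw [TR1_mk_eq]
    intro a c j ha hc hj
    have := h a c j ha hc hj
    change TR1_f a c j _ = TR1_f a c j _ at this
    rwa [TR1_f_mk a c j ha hc hj, TR1_f_mk a c j ha hc hj] at this

end Pool.Agent.BS

end
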